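import Pool.Agent.R489.HB.Stm

/-! HB-MLIFT (helper608 for helper489): the lifted edges are independent and do not span the
kernel vector. -/

set_option autoImplicit false

namespace Pool.Agent.R608.HB

open Finset Pool.Agent.R489.HB

section

variable {W : Type} [DecidableEq W]

theorem edg_card {Φ : Finset (Finset W)} {e : Finset W} (he : e ∈ edg Φ) : e.card = 2 := by
  obtain ⟨f, -, hf⟩ := mem_biUnion.1 he
  exact (mem_powersetCard.1 hf).2

/-- an edge through `v` other than `{u, v}` -/
theorem edge_form {Φ : Finset (Finset W)} {u v : W} {e : Finset W} (he : e ∈ edg Φ)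
    (hne : e ≠ {u, v}) (hv : v ∈ e) : ∃ b, b ≠ v ∧ b ≠ u ∧ e = {v, b} := by
  have h2 := edg_card he
  obtain ⟨x, y, hxy, rfl⟩ := card_eq_two.1 h2
  rcases mem_insert.1 hv with h | h
  · subst h
    refine ⟨y, hxy.symm, ?_, rfl⟩
    rintro rfl
    exact hne (pair_comm _ _)
  · rw [mem_singleton] at h
    subst h
    refine ⟨x, hxy, ?_, pair_comm _ _⟩
    rintro rfl
    exact hne rfl

theorem mv_pair {u v b : W} (hb : b ≠ v) : mv u v {v, b} = {u, b} := by
  unfold mv
  rw [if_pos (mem_insert_self _ _)]
  congr 1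
  rw [erase_insert]
  simpa using hb.symm

theorem mv_not {u v : W} {e : Finset W} (h : v ∉ e) : mv u v e = e := by
  unfold mv
  rw [if_neg h]

/-- the contraction on vectors -/
def prj (T : Finset W) (u v : W) : (W → ZMod 2) →ₗ[ZMod 2] (W → ZMod 2) where
  toFun g := fun x => if x = v then 0 else if x = u then (if u ∈ T then g u else g u + g v)
    else g x
  map_add' g h := by
    funext x
    simp only [Pi.add_apply]
    split_ifs
    · rw [add_zero]
    · rfl
    · ring
    · rfl
  map_smul' c g := by
    funext x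
    simp only [Pi.smul_apply, smul_eq_mul, RingHom.id_apply]
    split_ifs <;> ring

theorem prj_v (T : Finset W) (u v : W) (g : W → ZMod 2) : prj T u v g v = 0 := if_pos rfl

theorem prj_uT (T : Finset W) (u v : W) (g : W → ZMod 2) (huv : u ≠ v) (hu : u ∈ T) :
    prj T u v g u = g u := by
  change (if u = v then 0 else if u = u then (if u ∈ T then g u else g u + g v) else g u) = _
  rw [if_neg huv, if_pos rfl, if_pos hu]

theorem prj_u (T : Finset W) (u v : W) (g : W → ZMod 2) (huv : u ≠ v) (hu : u ∉ T) :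
    prj T u v g u = g u + g v := by
  change (if u = v then 0 else if u = u then (if u ∈ T then g u else g u + g v) else g u) = _
  rw [if_neg huv, if_pos rfl, if_neg hu]

theorem prj_o (T : Finset W) (u v x : W) (g : W → ZMod 2) (hxu : x ≠ u) (hxv : x ≠ v) :
    prj T u v g x = g x := by
  change (if x = v then 0 else if x = u then (if u ∈ T then g u else g u + g v) else g x) = _
  rw [if_neg hxv, if_neg hxu]

theorem prj_kap (T : Finset W) (u v : W) (huv : u ≠ v) (hvT : v ∉ T) :
    prj T u v (kap T u v) = 0 := by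
  funext x
  have h2 : (1 : ZMod 2) + 1 = 0 := by decide
  rw [Pi.zero_apply]
  by_cases hxv : x = v
  · rw [hxv]
    exact prj_v _ _ _ _
  · by_cases hxu : x = u
    · rw [hxu]
      by_cases huT : u ∈ T
      · rw [prj_uT _ _ _ _ huv huT]
        unfold kap
        rw [if_neg (by tauto)]
      · rw [prj_u _ _ _ _ huv huT]
        unfold kap
        rw [if_pos ⟨huT, Or.inl rfl⟩, if_pos ⟨hvT, Or.inr rfl⟩, h2]
    · rw [prj_o _ _ _ _ _ hxu hxv]
      unfold kap
      rw [if_neg (by tauto)]

theorem vec_not {T : Finset W} {a : W → Fin 3} {i : Fin 3} {e : Finset W} {x : W} (h : x ∉ e) :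
    vec T a i e x = 0 := by
  unfold vec
  rw [if_neg (by tauto)]

theorem prj_vec {Φ : Finset (Finset W)} {T : Finset W} {a : W → Fin 3} {u v : W} {i : Fin 3}
    (huv : u ≠ v) (hvT : v ∉ T) (hau : a u = a v) {e : Finset W} (he : e ∈ edg Φ)
    (hne : e ≠ {u, v}) : prj T u v (vec T a i e) = vec T a i (mv u v e) := by
  by_cases hve : v ∈ e
  · obtain ⟨b, hbv, hbu, rfl⟩ := edge_form he hne hve
    rw [mv_pair hbv]
    funext x
    by_cases hxv : x = v
    · rw [hxv, prj_v, vec_not]
      simp only [mem_insert, mem_singleton, not_or]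
      exact ⟨huv.symm, hbv.symm⟩
    · by_cases hxu : x = u
      · rw [hxu]
        by_cases huT : u ∈ T
        · rw [prj_uT _ _ _ _ huv huT, vec_not (by
            simp only [mem_insert, mem_singleton, not_or]
            exact ⟨huv, hbu.symm⟩)]
          unfold vec
          rw [if_neg (by tauto)]
        · rw [prj_u _ _ _ _ huv huT, vec_not (by
            simp only [mem_insert, mem_singleton, not_or]
            exact ⟨huv, hbu.symm⟩), zero_add]
          unfold vec
          simp only [mem_insert, mem_singleton, forall_eq_or_imp, forall_eq, exists_eq_or_imp,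
            exists_eq_left, hau, true_or, huT, hvT, not_false_eq_true, true_and]
      · rw [prj_o _ _ _ _ _ hxu hxv]
        unfold vec
        simp only [mem_insert, mem_singleton, forall_eq_or_imp, forall_eq, exists_eq_or_imp,
            exists_eq_left, hau, hxu, hxv, false_or]
  · rw [mv_not hve]
    funext x
    by_cases hxv : x = v
    · rw [hxv, prj_v, vec_not hve]
    · by_cases hxu : x = u
      · rw [hxu]
        by_cases huT : u ∈ T
        · rw [prj_uT _ _ _ _ huv huT]
        · rw [prj_u _ _ _ _ huv huT, vec_not hve, add_zero]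
      · rw [prj_o _ _ _ _ _ hxu hxv]

end

theorem MLIFT (hcone : S_CONE) : S_MLIFT := by
  intro W _ Φ T a u v y1 y2 l1 l2 g1 g2 h1 h2 c' i hΦ hT huv hvT huve hau hgood h5 hapx hl1 hl2
    hind
  have hedg := (hcone W Φ u v hΦ huv huve hgood h5).2
  -- the map on the index sets
  have hmap : ∀ e ∈ lifted Φ T u v y1 y2 l1 l2 c' i,
      mv u v e ∈ {e : Finset W | e ∈ edg (contr u v Φ) ∧ ¬ e ⊆ T ∧ c' e = i} := by
    rintro e ⟨he1, he2, -, -, he5, he6⟩
    refine ⟨?_, he5, he6⟩
    rw [hedg]
    exact mem_image_of_mem _ (mem_erase.2 ⟨he2, he1⟩)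
  have hcross : ∀ e ∈ lifted Φ T u v y1 y2 l1 l2 c' i, ∀ e' ∈ lifted Φ T u v y1 y2 l1 l2 c' i,
      v ∉ e → v ∈ e' → mv u v e = mv u v e' → False := by
    rintro e ⟨he1, he2, he3, he4, -, -⟩ e' ⟨he1', he2', he3', he4', -, -⟩ hve hve' hmv
    obtain ⟨b, hbv, hbu, rfl⟩ := edge_form he1' he2' hve'
    rw [mv_not hve, mv_pair hbv] at hmv
    subst hmv
    rcases (hapx.common b hbu hbv).1 ⟨he1, he1'⟩ with rfl | rfl
    · rcases hl1 with rfl | rfl
      · exact he3 rfl
      · exact he3' rfl
    · rcases hl2 with rfl | rfl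
      · exact he4 rfl
      · exact he4' rfl
  have hinj : ∀ e ∈ lifted Φ T u v y1 y2 l1 l2 c' i, ∀ e' ∈ lifted Φ T u v y1 y2 l1 l2 c' i,
      mv u v e = mv u v e' → e = e' := by
    intro e he e' he' hmv
    by_cases hve : v ∈ e
    · by_cases hve' : v ∈ e'
      · obtain ⟨b, hbv, hbu, rfl⟩ := edge_form he.1 he.2.1 hve
        obtain ⟨b', hbv', hbu', rfl⟩ := edge_form he'.1 he'.2.1 hve'
        rw [mv_pair hbv, mv_pair hbv'] at hmv
        have : b ∈ ({u, b'} : Finset W) := hmv ▸ mem_insert_of_mem (mem_singleton_self b)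
        rcases mem_insert.1 this with h | h
        · exact absurd h hbu
        · rw [mem_singleton.1 h]
      · exact (hcross e' he' e he hve' hve hmv.symm).elim
    · by_cases hve' : v ∈ e'
      · exact (hcross e he e' he' hve hve' hmv).elim
      · rwa [mv_not hve, mv_not hve'] at hmv
  let L := lifted Φ T u v y1 y2 l1 l2 c' i
  let w : L → (W → ZMod 2) := fun e => vec T a i (e : Finset W)
  have hprj : (prj T u v ∘ w) = fun e : L => vec T a i (mv u v (e : Finset W)) := by
    funext e
    exact prj_vec huv hvT hau e.2.1 e.2.2.1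
  have hcomp : LinearIndependent (ZMod 2) (prj T u v ∘ w) := by
    rw [hprj]
    let F : L → {e : Finset W | e ∈ edg (contr u v Φ) ∧ ¬ e ⊆ T ∧ c' e = i} :=
      fun e => ⟨mv u v e, hmap e e.2⟩
    have hF : Function.Injective F := by
      intro e e' h
      exact Subtype.ext (hinj e e.2 e' e'.2 (congrArg Subtype.val h))
    exact LinearIndependent.comp hind F hF
  refine ⟨LinearIndependent.of_comp (prj T u v) hcomp, ?_⟩
  intro hmem
  have hr : vec T a i '' L = Set.range w := by
    rw [Set.image_eq_range]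
  change kap T u v ∈ Submodule.span (ZMod 2) (vec T a i '' L) at hmem
  rw [hr, ← Finsupp.range_linearCombination] at hmem
  obtain ⟨c, hc⟩ := hmem
  have h0 : Finsupp.linearCombination (ZMod 2) (prj T u v ∘ w) c = 0 := by
    rw [← LinearMap.map_finsupp_linearCombination, hc, prj_kap T u v huv hvT]
  have hc0 := linearIndependent_iff.1 hcomp c h0
  rw [hc0, map_zero] at hc
  have hv := congrFun hc v
  rw [Pi.zero_apply] at hv
  unfold kap at hv
  rw [if_pos ⟨hvT, Or.inr rfl⟩] at hv
  exact absurd hv (by decide)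

end Pool.Agent.R608.HB
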